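import Pool.Agent.X79.EC.Str
import Pool.Agent.X79.EC.Asm
import Pool.Agent.X326.EC.Alg
import Pool.Agent.X193.EC.Cof
import Pool.Agent.X142.EC.TB
import Pool.Agent.X196.EC.Fin

/-!
# Edge cover polynomials of graphs with minimum degree two have at least three distinct roots

Let `G` be a connected graph with minimum degree 2, not the triangle. Then the edge cover polynomial
`E(G, x)` has at least three distinct complex roots.

Proof. Otherwise `E(G, x) = x ^ ρ (x + c) ^ k`. The coefficients of `x ^ (m - 1)`, `x ^ (m - 2)`,
`x ^ (m - 3)` give `ρ = k (c - 1)`, `m (c - 1) = 2 n₂` and `3 (m₂₂ - n₃) = 2 n₂ (c - 2)`, where `n₂`,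
`n₃` are the numbers of vertices of degree 2 and 3 and `m₂₂` is the number of edges joining vertices
of degree 2. So `c` is 2 or 3, and `c = 3` is impossible. For `c = 2` we get `m = 2 n₂`, every edge
cover has at least `n₂` edges, there are `3 ^ n₂` edge covers, and `m₂₂ = n₃` is the number of edges
joining vertices of degree at least 3. If `e` is such an edge, then `G - e` has no edge cover with at
most `(m - 1) / 2` edges, and by the Tutte-Berge formula it has an odd cycle as a component. By
counting, all these cycles are triangles, each vertex of degree 3 belongs to one of them, and the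
other vertices of degree 2 are not adjacent to one another. For such graphs there are less than
`3 ^ n₂` edge covers.
-/

set_option autoImplicit false

namespace Pool.Agent.Results.MP_2a9600_co.ThreeRoots

open Finset Polynomial

/-- `numCovers G i` is the number `e(G, i)` of edge covering sets of `G` with exactly `i` edges: sets
`S` of `i` edges of `G` such that every vertex is an endpoint of some member of `S`. -/
def numCovers {V : Type} [Fintype V] [DecidableEq V] (G : SimpleGraph V) [DecidableRel G.Adj]
    (i : ℕ) : ℕ :=
  ((G.edgeFinset.powersetCard i).filter (fun S => ∀ v : V, ∃ e ∈ S, v ∈ e)).card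

/-- The edge cover polynomial `∑_{i ≤ m} e(G, i) x^i` of `G`, where `m` is the number of edges. -/
noncomputable def edgeCoverPoly {V : Type} [Fintype V] [DecidableEq V] (G : SimpleGraph V)
    [DecidableRel G.Adj] : ℂ[X] :=
  ∑ i ∈ range (G.edgeFinset.card + 1), C (numCovers G i : ℂ) * X ^ i

section

variable {V : Type} [Fintype V] [DecidableEq V] (G : SimpleGraph V) [DecidableRel G.Adj]

lemma numCovers_eq (j : ℕ) :
    numCovers G j = ((Pool.Agent.X79.EC.covs G).filter (fun S => S.card = j)).card := by
  unfold numCovers Pool.Agent.X79.EC.covs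
  congr 1
  ext S
  simp only [mem_filter, mem_powersetCard, mem_powerset]
  tauto

lemma poly_eq : edgeCoverPoly G = (Pool.Agent.X79.EC.pZ G).map (Int.castRingHom ℂ) := by
  ext j
  rw [coeff_map, Pool.Agent.X79.EC.coeff_pZ, ← numCovers_eq]
  unfold edgeCoverPoly
  rw [finsetSum_coeff]
  simp only [coeff_C_mul, coeff_X_pow, mul_ite, mul_one, mul_zero]
  rw [Finset.sum_ite_eq]
  split_ifs with h
  · simp
  · have hj : G.edgeFinset.card < j := by
      simpa [Nat.lt_succ_iff] using h
    unfold numCovers
    rw [Finset.powersetCard_eq_empty.mpr hj]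
    simp

end

/-- **Every connected graph with minimum degree 2 other than the triangle has an edge cover polynomial
with at least three distinct complex roots.** -/
theorem result {V : Type} [Fintype V] [DecidableEq V] (G : SimpleGraph V) [DecidableRel G.Adj]
    (hG : G.Connected) (hδ : G.minDegree = 2)
    (hK : ¬ Nonempty (G ≃g (⊤ : SimpleGraph (Fin 3)))) :
    3 ≤ {z : ℂ | (edgeCoverPoly G).eval z = 0}.encard := by
  have hne : Nonempty V := hG.nonempty
  have h2 : ∀ v, 2 ≤ G.degree v := fun v => hδ ▸ G.minDegree_le_degree v
  obtain ⟨v₀, hv₀⟩ := G.exists_minimal_degree_vertex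
  have hlt : G.degree v₀ < Fintype.card V := G.degree_lt_card_verts v₀
  have hn : 4 ≤ Fintype.card V := by
    by_contra hcon
    have h3 : Fintype.card V = 3 := by
      have := h2 v₀
      omega
    apply hK
    have hadj : ∀ x y, x ≠ y → G.Adj x y := by
      intro x y hxy
      have h4 : G.neighborFinset x = univ.erase x := by
        apply eq_of_subset_of_card_le
        · intro w hw
          rw [SimpleGraph.mem_neighborFinset] at hw
          exact mem_erase.2 ⟨hw.ne', mem_univ _⟩
        · rw [card_erase_of_mem (mem_univ _), card_univ, h3,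
            SimpleGraph.card_neighborFinset_eq_degree]
          exact h2 x
      rw [← SimpleGraph.mem_neighborFinset, h4]
      exact mem_erase.2 ⟨hxy.symm, mem_univ _⟩
    refine ⟨⟨Fintype.equivFinOfCardEq h3, ?_⟩⟩
    intro a b
    rw [SimpleGraph.top_adj]
    constructor
    · intro h
      exact hadj a b fun hab => h (by rw [hab])
    · intro h h'
      exact h.ne ((Fintype.equivFinOfCardEq h3).injective h')
  rw [poly_eq]
  exact Pool.Agent.X79.EC.main Pool.Agent.X326.EC.t_ALG Pool.Agent.X193.EC.t_COF
    Pool.Agent.X193.EC.t_DEG Pool.Agent.X196.EC.t_FIN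
    (Pool.Agent.X79.EC.t_STR Pool.Agent.X142.EC.t_TB) hG h2 hn ⟨v₀, by rw [← hv₀, hδ]⟩

end Pool.Agent.Results.MP_2a9600_co.ThreeRoots
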